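import Pool.Agent.H.MP_541d1f_an.C

open Set Metric Pool.Agent.H.MP_541d1f_an

namespace Pool.Agent.Results.MP_541d1f_an.No

theorem result : ∃ (Ω : Set (EuclideanSpace ℝ (Fin 3))) (r : ℝ) (x : EuclideanSpace ℝ (Fin 3)),
    IsOpen Ω ∧ IsConnected Ω ∧ Bornology.IsBounded Ω ∧ 0 < r ∧ ball x r ⊆ Ω ∧
    (∀ y, ball y r ⊆ Ω → lam (Ω \ closedBall x r) ≤ lam (Ω \ closedBall y r)) ∧
    r < infDist x (frontier Ω) ∧
    ∃ (c : EuclideanSpace ℝ (Fin 3)) (L : ℝ) (I : Finset (EuclideanSpace ℝ (Fin 3) × ℝ)),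
      (∀ b ∈ I, 0 < b.2 ∧ closedBall b.1 b.2 ⊆ ball c L) ∧
      (∀ b ∈ I, ∀ b' ∈ I, b ≠ b' → Disjoint (closedBall b.1 b.2) (closedBall b'.1 b'.2)) ∧
      Ω = ball c L \ ⋃ b ∈ I, closedBall b.1 b.2 := by
  classical
  have r0 : 0 < ρ := by unfold ρ; norm_num
  have s0 : 0 < s := by unfold s; norm_num
  have L3 : 3 < L := by have := Real.pi_gt_three; unfold L q q0 s ρ k; linarith
  let G := ball (a 0) L \ ⋃ i ∈ Finset.univ, closedBall (a i) s
  have Go : IsOpen G := isOpen_ball.sdiff (Finset.univ.finite_toSet.isClosed_biUnion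
    fun _ _ => isClosed_closedBall)
  have mG : ∀ z, z ∈ G ↔ ‖z - a 0‖ < L ∧ ∀ i, s < ‖z - a i‖ := fun z => by simp [G, dist_eq_norm]
  obtain ⟨F, F1, F2, F3⟩ := ((isCompact_closedBall (a 0) L).diff (isOpen_ball (x := 0) (ε := 5 * ρ))
    ).finite_cover_balls r0
  let F' := F2.toFinset.filter (· ∈ G)
  have mF : ∀ p, p ∈ F' ↔ p ∈ F ∧ p ∈ G := fun p => by simp [F']
  have B0 : ball 0 (5 * ρ) ⊆ G := fun z hz => by
    have := mem_ball_zero_iff.1 hz
    refine (mG z).2 ⟨?_, fun i => ?_⟩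
    · unfold ρ at this; linarith [norm_sub_le z (a 0), na 0]
    · unfold ρ s at *; linarith [norm_sub_norm_le (a i) z, norm_sub_rev z (a i), na i]
  have n : ∀ z c : EuclideanSpace ℝ (Fin 3), ∀ t, 0 < t → t ≤ ‖z - c‖ → z ≠ c := fun z c t h1 h2 i => by
    simp [i] at h2; linarith
  let T := closedBall (a 0) L \ ((⋃ i, ball (a i) s) ∪ ball 0 ρ)
  have mT : ∀ z, z ∈ T ↔ ‖z - a 0‖ ≤ L ∧ (∀ i, s ≤ ‖z - a i‖) ∧ ρ ≤ ‖z‖ := fun z => by
    simp [T, dist_eq_norm]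
  obtain ⟨z, hz⟩ := exists_norm_eq (EuclideanSpace ℝ (Fin 3)) (show 0 ≤ 2 * ρ by positivity)
  have z5 : z ∈ ball 0 (5 * ρ) := mem_ball_zero_iff.2 (by linarith)
  have up := ubp k0 (T := T) (V := G \ closedBall 0 ρ) ((isCompact_closedBall _ _).diff
    ((isOpen_iUnion fun _ => isOpen_ball).union isOpen_ball)) (Go.sdiff isClosed_closedBall)
    (fun z hz => (mT z).2 ⟨((mG z).1 hz.1).1.le, fun i => (((mG z).1 hz.1).2 i).le,
      le_of_lt (by simpa using hz.2)⟩) F'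
    (W := fun z => S k (a 0) z - (∑ i, q * C k (a i) z + q0 * C k 0 z)) (fun z hz => by
      obtain ⟨-, h1, h2⟩ := (mT z).1 hz
      exact (solS (n _ _ _ s0 (h1 0))).sub ((Sol.sum _ fun i _ => (solC (n _ _ _ s0 (h1 i))).mul _).add
        ((solC (n _ _ _ r0 (by simpa))).mul _)))
    (m := k ^ 2 / 4) (by have := k0; positivity) (fun z hz i => negW (by
      obtain ⟨h0, h1, h2⟩ := (mT z).1 hz
      by_contra! j
      exact i ⟨(mG z).2 ⟨h0.lt_of_ne j.1, fun i => (h1 i).lt_of_ne' (j.2.1 i)⟩,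
        by simpa using h2.lt_of_ne' j.2.2⟩))
    ((mT z).2 ⟨((mG z).1 (B0 z5)).1.le, fun i => (((mG z).1 (B0 z5)).2 i).le, by linarith⟩)
    (fun i => (F1 ((mF z).1 i).1).2 z5) (posx hz)
  obtain ⟨t, ⟨up, t0⟩, t1, t2, t3⟩ := ((up.and self_mem_nhdsWithin).and (((eventually_lt_nhds (half_pos r0)).and
    (((F'.eventually_all (p := fun p t => closedBall p t ⊆ G)).2 fun p hp => eventually_closedBall_subset
      (Go.mem_nhds ((mF p).1 hp).2)).and ((F'.offDiag.eventually_all (p := fun p t => t < dist p.1 p.2 / 2)).2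
      fun p hp => eventually_lt_nhds (half_pos (dist_pos.2 (Finset.mem_offDiag.1 hp).2.2))))).filter_mono
      nhdsWithin_le_nhds)).exists
  have t0 : 0 < t := t0
  let I := Finset.univ.image (fun i => (a i, s)) ∪ F'.image fun p => (p, t)
  have mI : ∀ b, b ∈ I ↔ (∃ i, (a i, s) = b) ∨ ∃ p ∈ F', (p, t) = b := fun b => by
    simp only [I, Finset.mem_union, Finset.mem_image, Finset.mem_univ, true_and]
  have I1 : ∀ b ∈ I, 0 < b.2 ∧ closedBall b.1 b.2 ⊆ ball (a 0) L := fun b hb => by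
    rcases (mI b).1 hb with ⟨i, rfl⟩ | ⟨p, hp, rfl⟩
    · exact ⟨s0, closedBall_subset_ball' (by
        unfold s; linarith [dist_le_norm_add_norm (a i) (a 0), na i, na 0])⟩
    · exact ⟨t0, (t2 p hp).trans sdiff_subset⟩
  have I3 : ∀ i, ∀ p ∈ F', Disjoint (closedBall (a i) s) (closedBall p t) := fun i p hp =>
    disjoint_left.2 fun z h1 h2 => (((mG z).1 (t2 p hp h2)).2 i).not_ge (mem_closedBall_iff_norm.1 h1)
  have I2 : ∀ b ∈ I, ∀ b' ∈ I, b ≠ b' → Disjoint (closedBall b.1 b.2) (closedBall b'.1 b'.2) :=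
    fun b hb b' hb' h => by
    rcases (mI b).1 hb with ⟨i, rfl⟩ | ⟨p, hp, rfl⟩ <;> rcases (mI b').1 hb' with ⟨j, rfl⟩ | ⟨p', hp', rfl⟩
    · exact closedBall_disjoint_closedBall (by
        unfold s; linarith [nab (show i ≠ j from fun e => h (e ▸ rfl)), dist_eq_norm (a i) (a j)])
    · exact I3 _ _ hp'
    · exact (I3 _ _ hp).symm
    · exact closedBall_disjoint_closedBall (by
        linarith [t3 (p, p') (Finset.mem_offDiag.2 ⟨hp, hp', fun e => h (congrArg (·, t) e)⟩)])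
  let Ω := ball (a 0) L \ ⋃ b ∈ I, closedBall b.1 b.2
  have mO : ∀ z, z ∈ Ω ↔ z ∈ G ∧ ∀ p ∈ F', z ∉ closedBall p t := fun z => by
    simp only [Ω, G, I, Finset.set_biUnion_union, Finset.set_biUnion_finset_image, mem_sdiff, mem_union,
      not_or, and_assoc, mem_iUnion, not_exists]
  have Ob : Bornology.IsBounded Ω := isBounded_ball.subset sdiff_subset
  have Oo : IsOpen Ω := isOpen_ball.sdiff (I.finite_toSet.isClosed_biUnion fun _ _ => isClosed_closedBall)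
  have B : ball 0 (9 / 2 * ρ) ⊆ Ω := fun z hz => (mO z).2 ⟨B0 (ball_subset_ball (by linarith) hz),
    fun p hp i => (F1 ((mF p).1 hp).1).2 (mem_ball.2 (by
      linarith [mem_ball.1 hz, mem_closedBall'.1 i, dist_triangle p z 0]))⟩
  obtain ⟨x, x1, x2⟩ := exmin (ρ := ρ) (R := 3 * ρ) Ob (by positivity) (by positivity) (by linarith) B
  have O0 : Ω.Nonempty := ⟨0, B (mem_ball_self (by positivity))⟩
  refine ⟨Ω, ρ, x, Oo, ⟨O0, holes I _ _ isOpen_ball (convex_ball _ _).isPreconnected I1 I2⟩, Ob, r0,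
    (ball_subset_ball' (by linarith [mem_closedBall.1 x1])).trans B, fun y hy => ?_, ?_, _, _, I, I1, I2, rfl⟩
  · by_cases c : y ∈ closedBall 0 (3 * ρ)
    · exact x2 c
    have y1 : 3 * ρ ≤ ‖y‖ := le_of_lt (by simpa using c)
    have y2 : ‖y‖ ≤ 5 * ρ := by_contra fun i => by
      obtain ⟨p, p1, p2⟩ := mem_iUnion₂.1 (F3 ⟨ball_subset_closedBall (hy (mem_ball_self r0)).1,
        fun j => i (mem_ball_zero_iff.1 j).le⟩)
      have := (mO p).1 (hy (mem_ball_comm.1 p2))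
      exact this.2 p ((mF p).2 ⟨p1, this.1⟩) (mem_closedBall_self t0.le)
    refine (x2 (mem_closedBall_self (by positivity))).trans (le_trans (up (Ω \ closedBall 0 ρ) fun z hz =>
      ⟨(mO z).2 ⟨hz.1.1, fun p hp i => hz.2 (mem_iUnion₂.2 ⟨p, hp, i⟩)⟩, hz.1.2⟩) (barta (k := k) (x := 0)
      (W := fun z => S k (a 0) z - (∑ i, s * (1 - 14 * s - ρ * u y i) * C k (a i) z + q1 * C k y z))
      ((Oo.sdiff isClosed_closedBall).mem_nhds ⟨B (mem_ball_self (by positivity)), by simp; linarith⟩)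
      fun z hz => ?_))
    obtain ⟨h1, h2⟩ := (mG z).1 ((mO z).1 hz.1).1
    have h3 : ρ < ‖z - y‖ := by simpa [dist_eq_norm] using hz.2
    exact ⟨(solS (n _ _ _ s0 (h2 0).le)).sub ((Sol.sum _ fun i _ => (solC (n _ _ _ s0 (h2 i).le)).mul _).add
      ((solC (n _ _ _ r0 h3.le)).mul _)), (sub_pos.2 (posW y1 y2 h1 h2 h3)).ne'⟩
  · refine lt_of_lt_of_le (show ρ < 3 / 2 * ρ by linarith) ((le_infDist (nonempty_frontier_iff.2
      ⟨O0, fun i => NormedSpace.unbounded_univ ℝ _ (i ▸ Ob)⟩)).2 fun z hz => ?_)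
    rw [Oo.frontier_eq] at hz
    linarith [not_lt.1 fun i : dist z 0 < _ => hz.2 (B i), mem_closedBall.1 x1, dist_triangle z x 0, dist_comm x z]

end Pool.Agent.Results.MP_541d1f_an.No
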